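import Pool.Agent.Helper66_ML.Stmts2
import Pool.Agent.Helper79_WRA.Basic

/-!
Squad ML, row LIM: the `ℓ`-power powers of algebraic integers.
-/

open scoped BigOperators

noncomputable section

namespace Pool.Agent.PP.ML.H51

open Pool.Agent.Helper51_AWC Pool.Agent.Helper79_WRA Pool.Agent.PP Pool.Agent.Helper98_CC

variable {ℓ : ℕ} [hℓ : Fact ℓ.Prime] {M : Ideal (integralClosure ℤ ℂ)} [hM : M.IsMaximal]

theorem int_isInt (a : ℤ) : IsIntegral ℤ (a : ℂ) := isIntegral_algebraMap (R := ℤ) (A := ℂ) (x := a)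

theorem red_int_ne (hl : (ℓ : integralClosure ℤ ℂ) ∈ M) {a : ℤ} (ha : ¬ (ℓ : ℤ) ∣ a) :
    red M (a : ℂ) ≠ 0 := by
  intro h0
  rw [red_of (int_isInt a), Ideal.Quotient.eq_zero_iff_mem] at h0
  have e : (⟨(a : ℂ), int_isInt a⟩ : integralClosure ℤ ℂ) = ((a : ℤ) : integralClosure ℤ ℂ) := by
    apply Subtype.ext; simp
  rw [e] at h0
  have hc : IsCoprime (ℓ : ℤ) a := by
    rw [Prime.coprime_iff_not_dvd (Nat.prime_iff_prime_int.mp hℓ.out)]
    exact ha
  obtain ⟨x, y, hxy⟩ := hc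
  have : (1 : integralClosure ℤ ℂ) ∈ M := by
    have h1 : (1 : integralClosure ℤ ℂ) =
        ((x : ℤ) : integralClosure ℤ ℂ) * (ℓ : integralClosure ℤ ℂ) +
          ((y : ℤ) : integralClosure ℤ ℂ) * ((a : ℤ) : integralClosure ℤ ℂ) := by
      have := congrArg (fun t : ℤ => (t : integralClosure ℤ ℂ)) hxy
      push_cast at this
      rw [this]
    rw [h1]
    exact M.add_mem (M.mul_mem_left _ hl) (M.mul_mem_left _ h0)
  exact hM.ne_top ((Ideal.eq_top_iff_one M).mpr this)

theorem aeval_int {z : ℂ} (hz : IsIntegral ℤ z) (p : Polynomial ℤ) :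
    IsIntegral ℤ (Polynomial.aeval z p) := by
  induction p using Polynomial.induction_on' with
  | add p q hp hq => rw [map_add]; exact hp.add hq
  | monomial n a =>
    rw [Polynomial.aeval_monomial]
    exact (int_isInt a).mul (hz.pow n)

theorem horner (hl : (ℓ : integralClosure ℤ ℂ) ∈ M) {z : ℂ} (hz : IsIntegral ℤ z)
    (h0 : red M z = 0) : ∀ (d : ℕ) (p : Polynomial ℤ), p.natDegree ≤ d →
    (∃ i, ¬ (ℓ : ℤ) ∣ p.coeff i) →
    ∃ (i : ℕ) (u v : ℂ), IsIntegral ℤ u ∧ red M u ≠ 0 ∧ IsIntegral ℤ v ∧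
      Polynomial.aeval z p = u * z ^ i + ℓ * v := by
  intro d
  induction d with
  | zero =>
    intro p hp ⟨i, hi⟩
    have hpc : p = Polynomial.C (p.coeff 0) := Polynomial.eq_C_of_natDegree_le_zero hp
    have hi0 : ¬ (ℓ : ℤ) ∣ p.coeff 0 := by
      rcases Nat.eq_zero_or_pos i with rfl | hpos
      · exact hi
      · exfalso
        apply hi
        rw [hpc, Polynomial.coeff_C, if_neg (by omega)]
        exact dvd_zero _
    refine ⟨0, ((p.coeff 0 : ℤ) : ℂ), 0, int_isInt _, red_int_ne hl hi0, isIntegral_zero, ?_⟩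
    rw [hpc, Polynomial.aeval_C]
    simp
  | succ d ih =>
    intro p hp ⟨i, hi⟩
    have hdec := Polynomial.divX_mul_X_add p
    have hev : Polynomial.aeval z p =
        Polynomial.aeval z p.divX * z + ((p.coeff 0 : ℤ) : ℂ) := by
      conv_lhs => rw [← hdec]
      rw [map_add, map_mul, Polynomial.aeval_X, Polynomial.aeval_C]
      simp
    by_cases hc : (ℓ : ℤ) ∣ p.coeff 0
    · obtain ⟨c, hc⟩ := hc
      have hi' : ∃ j, ¬ (ℓ : ℤ) ∣ p.divX.coeff j := by
        rcases Nat.eq_zero_or_pos i with rfl | hpos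
        · exact absurd ⟨c, hc⟩ hi
        · refine ⟨i - 1, ?_⟩
          rw [Polynomial.coeff_divX]
          have : i - 1 + 1 = i := by omega
          rw [this]; exact hi
      obtain ⟨j, u, v, hu, hu0, hv, h⟩ := ih p.divX
        (by rw [Polynomial.natDegree_divX_eq_natDegree_tsub_one]; omega) hi'
      refine ⟨j + 1, u, v * z + c, hu, hu0, (hv.mul hz).add (int_isInt c), ?_⟩
      rw [hev, h, hc]
      push_cast
      ring
    · refine ⟨0, Polynomial.aeval z p, 0, aeval_int hz p, ?_, isIntegral_zero, by simp⟩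
      rw [hev, red_add ((aeval_int hz _).mul hz) (int_isInt _), red_mul (aeval_int hz _) hz, h0,
        mul_zero, zero_add]
      exact red_int_ne hl hc

theorem ld_start (hl : (ℓ : integralClosure ℤ ℂ) ∈ M) {z : ℂ} (hz : IsIntegral ℤ z)
    (h0 : red M z = 0) : ∃ i : ℕ, LD M ℓ (z ^ i) := by
  obtain ⟨p, hp, he⟩ := hz
  have he' : Polynomial.aeval z p = 0 := he
  obtain ⟨i, u, v, hu, hu0, hv, h⟩ := horner (ℓ := ℓ) hl ⟨p, hp, he⟩ h0 p.natDegree p le_rfl
    ⟨p.natDegree, by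
      have : p.coeff p.natDegree = 1 := hp
      rw [this]
      intro hd
      have h1 := Int.eq_one_of_dvd_one (by positivity) hd
      have h2 : ℓ = 1 := by exact_mod_cast h1
      exact hℓ.out.one_lt.ne' h2⟩
  refine ⟨i, u, -v, hu, hu0, hv.neg, ?_⟩
  rw [he'] at h
  linear_combination -h

omit hℓ hM in
theorem ld_mono {a b : ℕ} (hab : a ≤ b) {z : ℂ} (h : LD M (ℓ ^ b) z) : LD M (ℓ ^ a) z := by
  obtain ⟨u, v, hu, hu0, hv, e⟩ := h
  refine ⟨u, ℓ ^ (b - a) * v, hu, hu0, ?_, ?_⟩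
  · have : IsIntegral ℤ (((ℓ ^ (b - a) : ℤ) : ℂ) * v) := (int_isInt _).mul hv
    push_cast at this
    exact this
  · rw [e]
    have : (ℓ : ℂ) ^ b = ℓ ^ a * ℓ ^ (b - a) := by rw [← pow_add]; congr 1; omega
    push_cast
    rw [this]; ring

theorem ld_self {v : ℂ} (hv : IsIntegral ℤ v) (m : ℕ) : LD M m (m * v) :=
  ⟨1, v, isIntegral_one, by rw [red_one]; exact one_ne_zero, hv, by ring⟩

/-- LIM. -/
theorem lim (hlda : LdaStmt) : LimStmt := by
  intro ℓ hℓ M hM hl n z hz
  obtain ⟨hadd, hmul, hsm, -, -⟩ := hlda ℓ M hl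
  have hpow : ∀ (x : ℂ), LD M ℓ x → ∀ k : ℕ, LD M (ℓ ^ k) (x ^ k) := by
    intro x hx k
    induction k with
    | zero =>
      rw [pow_zero, pow_zero]
      have := ld_self (M := M) isIntegral_one 1
      simpa using this
    | succ k ih =>
      rw [pow_succ, pow_succ]
      exact hmul _ _ _ _ ih hx
  have hsub : ∀ (m : ℕ) (x w : ℂ), LD M m x → IsIntegral ℤ w → LD M m (x * w) := by
    intro m x w h1 h2
    rw [mul_comm]; exact hsm _ _ _ h1 h2
  constructor
  · intro h0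
    obtain ⟨i, hi⟩ := ld_start (ℓ := ℓ) hl hz h0
    refine ⟨i * n, fun N hN => ?_⟩
    have h1 : i * n ≤ ℓ ^ N := hN.trans (Nat.lt_pow_self hℓ.out.one_lt).le
    have h2 := hpow _ hi n
    rw [← pow_mul] at h2
    have h3 : z ^ ℓ ^ N = z ^ (ℓ ^ N - i * n) * z ^ (i * n) := by
      rw [← pow_add]; congr 1; omega
    rw [h3]
    exact hsm _ _ _ h2 (hz.pow _)
  · intro h1
    have hm : IsIntegral ℤ (z - 1) := hz.sub isIntegral_one
    have hm0 : red M (z - 1) = 0 := by
      have h2 := red_add (M := M) hm isIntegral_one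
      rw [sub_add_cancel, h1, red_one] at h2
      have : red M (z - 1) = red M (z - 1) + 1 - 1 := by ring
      rw [this, ← h2, sub_self]
    obtain ⟨i, hi⟩ := ld_start (ℓ := ℓ) hl hm hm0
    have hst : LD M ℓ (z ^ ℓ ^ i - 1) := by
      obtain ⟨r, hr⟩ := exists_add_pow_prime_pow_eq hℓ.out
        (⟨z - 1, hm⟩ : integralClosure ℤ ℂ) 1 i
      have hr' := congrArg (fun t : integralClosure ℤ ℂ => (t : ℂ)) hr
      simp only [Subalgebra.coe_add, Subalgebra.coe_pow, Subalgebra.coe_mul, Subalgebra.coe_one,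
        one_pow, sub_add_cancel] at hr'
      have h2 : z ^ ℓ ^ i - 1 = (z - 1) ^ (ℓ ^ i - i) * (z - 1) ^ i +
          ℓ * ((z - 1) * (r : ℂ)) := by
        rw [← pow_add]
        have : ℓ ^ i - i + i = ℓ ^ i := by
          have := (Nat.lt_pow_self hℓ.out.one_lt : i < ℓ ^ i); omega
        rw [this, hr']
        push_cast
        ring
      rw [h2]
      exact hadd _ _ _ (hsm _ _ _ hi (hm.pow _)) (ld_self (hm.mul r.2) ℓ)
    have hstep : ∀ (a : ℕ) (y : ℂ), IsIntegral ℤ y → LD M (ℓ ^ (a + 1)) (y - 1) →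
        LD M (ℓ ^ (a + 2)) (y ^ ℓ - 1) := by
      intro a y hy h
      have hone : LD M ℓ (y - 1) := by
        have := ld_mono (ℓ := ℓ) (a := 1) (b := a + 1) (by omega) h
        rwa [pow_one] at this
      have hg : LD M ℓ (∑ j ∈ Finset.range ℓ, y ^ j) := by
        have e : (∑ j ∈ Finset.range ℓ, y ^ j) =
            (∑ j ∈ Finset.range ℓ, (∑ t ∈ Finset.range j, y ^ t)) * (y - 1) + ℓ * 1 := by
          rw [Finset.sum_mul, mul_one]
          have : ∀ j ∈ Finset.range ℓ, y ^ j = (∑ t ∈ Finset.range j, y ^ t) * (y - 1) + 1 := by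
            intro j _
            rw [geom_sum_mul]; ring
          rw [Finset.sum_congr rfl this, Finset.sum_add_distrib]
          simp
        rw [e]
        refine hadd _ _ _ (hsm _ _ _ hone ?_) (ld_self isIntegral_one ℓ)
        exact IsIntegral.sum _ fun j _ => IsIntegral.sum _ fun t _ => hy.pow t
      have e2 : y ^ ℓ - 1 = (y - 1) * ∑ j ∈ Finset.range ℓ, y ^ j := by
        rw [mul_comm, geom_sum_mul]
      rw [e2, show ℓ ^ (a + 2) = ℓ ^ (a + 1) * ℓ from pow_succ _ _]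
      exact hmul _ _ _ _ h hg
    have hall : ∀ a : ℕ, LD M (ℓ ^ (a + 1)) (z ^ ℓ ^ (i + a) - 1) := by
      intro a
      induction a with
      | zero => simpa using hst
      | succ a ih =>
        have := hstep a _ (hz.pow _) ih
        rw [← pow_mul, ← pow_succ] at this
        exact this
    refine ⟨i + n, fun N hN => ?_⟩
    have h3 := hall (N - i)
    have h4 : i + (N - i) = N := by omega
    rw [h4] at h3
    exact ld_mono (ℓ := ℓ) (by omega) h3

end Pool.Agent.PP.ML.H51
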