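import Pool.Agent.Helper66_ML.Stmts2
import Pool.Agent.Helper50_PP.Res
import Pool.Agent.Helper79_WRA.Stmt

/-!
Squad ML, row SEL: a class function which selects a block.
-/

open scoped BigOperators

noncomputable section

namespace Pool.Agent.PP.ML.H51

open Pool.Agent.Helper51_AWC Pool.Agent.Helper79_WRA Pool.Agent.PP Pool.Agent.Helper98_CC

attribute [local instance] Ideal.Quotient.field

/-- SEL. -/
theorem sel (hbid : BidStmt) (hlabel : LabelStmt) : SelStmt := by
  intro ℓ hℓ M hM hl G _ _ χ hχ
  classical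
  obtain ⟨e, he, h1, h2⟩ := hbid ℓ hℓ.out M hl G χ hχ
  have hcl : H50.Cl e := he.1.1
  obtain ⟨c, hc, ec⟩ := H50.exists_lift (M := M) hcl
  have hce : (fun t => Ideal.Quotient.mk M (c t)) = e := funext ec
  refine ⟨fun t => (c t : ℂ), fun x y => congrArg Subtype.val (hc x y), fun x => (c x).2, ?_⟩
  intro d hd hch a ha
  have := Fintype.ofFinite G
  have hlift := H50.res_lift (M := M) c hc a (fun g => omega_IrrS_integral ha g)
  rw [hce] at hlift
  have hom : omF (fun t => (c t : ℂ)) a = H50.om (fun t => (c t : ℂ)) a := by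
    unfold omF H50.om
    rw [finsum_eq_sum_of_fintype]
  obtain ⟨ψ, hψ, hlab⟩ := hlabel ℓ M hl G d hd hch a ha
  have hres : ∀ b b' : G → ℂ, labF M b = labF M b' → res M e b = res M e b' := by
    intro b b' hbb
    unfold res
    refine finsum_congr fun K => ?_
    have := congrFun hbb (Quotient.out K)
    unfold labF at this
    rw [this]
  rw [hom]
  refine ⟨hlift.2, ?_, ?_⟩
  · intro hac
    rw [← hlift.1, hres a χ hac, h1]
  · intro hac
    rw [← hlift.1, hres a ψ hlab]
    exact h2 ψ hψ fun h => hac (hlab.trans h)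

end Pool.Agent.PP.ML.H51
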